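import Mathlib

set_option autoImplicit false

open Set Metric TopologicalSpace Topology Filter

namespace Pool.Agent.Results.MP_491d6e_gt.WijsmanTactic

/-- The hyperspace `2^X` of all nonempty closed subsets of a metric space `X`. -/
def Hyper (X : Type*) [MetricSpace X] : Type _ := {A : Set X // IsClosed A ∧ A.Nonempty}

/-- The Wijsman topology `T_W(d)` on `2^X`: the weakest topology making every distance functional
`A ↦ d(x, A) = inf_{a ∈ A} d(x, a)`, `x ∈ X`, continuous. -/
noncomputable instance wijsman (X : Type*) [MetricSpace X] : TopologicalSpace (Hyper X) :=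
  ⨅ x : X, TopologicalSpace.induced (fun A : Hyper X => infDist x A.1)
    (inferInstance : TopologicalSpace ℝ)

/-- `τ` is a tactic of player `α` in the strong Choquet game on `Y`: it answers every legal move
`(y, U)` (a point `y` of an open set `U`) of player `β` by an open set `τ y U` with
`y ∈ τ y U ⊆ U`. -/
def IsTactic {Y : Type*} [TopologicalSpace Y] (τ : Y → Set Y → Set Y) : Prop :=
  ∀ y U, IsOpen U → y ∈ U → IsOpen (τ y U) ∧ y ∈ τ y U ∧ τ y U ⊆ U

/-- `Y` is strongly `α`-favorable: player `α` has a tactic that wins every play of the strong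
Choquet game on `Y`. In round `n` player `β` plays an open set `U n` and a point `y n ∈ U n`, with
`U (n+1)` inside `α`'s answer of round `n`; `α` wins if the intersection of the answers is
nonempty. -/
def StronglyAlphaFavorable (Y : Type*) [TopologicalSpace Y] : Prop :=
  ∃ τ : Y → Set Y → Set Y, IsTactic τ ∧
    ∀ (y : ℕ → Y) (U : ℕ → Set Y),
      (∀ n, IsOpen (U n)) → (∀ n, y n ∈ U n) → (∀ n, U (n + 1) ⊆ τ (y n) (U n)) →
        (⋂ n, τ (y n) (U n)).Nonempty

/-! ### Completely metrizable spaces are strongly `α`-favorable -/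

theorem saf_of_complete (X : Type*) [MetricSpace X] [CompleteSpace X] :
    StronglyAlphaFavorable X := by
  classical
  -- choose a ball whose radius is small and which at least halves the diameter
  have key : ∀ (x : X) (U : Set X), ∃ r : ℝ, (IsOpen U → x ∈ U →
      0 < r ∧ r ≤ 1 / 2 ∧ closedBall x r ⊆ U ∧
        (∀ s : ℝ, (∀ u ∈ U, ∀ v ∈ U, dist u v ≤ s) →
          ∀ u ∈ closedBall x r, ∀ v ∈ closedBall x r, dist u v ≤ s / 2)) := by
    intro x U
    by_cases h : IsOpen U ∧ x ∈ U
    · obtain ⟨hU, hx⟩ := h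
      obtain ⟨ε, hε, hεU⟩ := Metric.isOpen_iff.1 hU x hx
      by_cases hs : ∃ y ∈ U, y ≠ x
      · obtain ⟨y, hy, hyx⟩ := hs
        have hd : 0 < dist y x := dist_pos.2 hyx
        refine ⟨min (min (ε / 4) (1 / 2)) (dist y x / 16), fun _ _ =>
          ⟨by positivity, (min_le_left _ _).trans (min_le_right _ _), ?_, ?_⟩⟩
        · refine (closedBall_subset_ball ?_).trans hεU
          have : min (min (ε / 4) (1 / 2)) (dist y x / 16) ≤ ε / 4 :=
            (min_le_left _ _).trans (min_le_left _ _)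
          linarith
        · intro s hsU u hu v hv
          have h1 : min (min (ε / 4) (1 / 2)) (dist y x / 16) ≤ dist y x / 16 := min_le_right _ _
          have h2 : dist y x ≤ s := hsU y hy x hx
          have h3 : dist u v ≤ dist u x + dist v x := dist_triangle_right _ _ _
          rw [mem_closedBall] at hu hv
          linarith
      · push Not at hs
        have hsub : closedBall x (min (ε / 4) (1 / 2)) ⊆ U := by
          refine (closedBall_subset_ball ?_).trans hεU
          have : min (ε / 4) (1 / 2) ≤ ε / 4 := min_le_left _ _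
          linarith
        refine ⟨min (ε / 4) (1 / 2), fun _ _ => ⟨by positivity, min_le_right _ _, hsub, ?_⟩⟩
        intro s hsU u hu v hv
        have hu' := hs u (hsub hu)
        have hv' := hs v (hsub hv)
        have := hsU x hx x hx
        rw [hu', hv']
        simp only [dist_self] at this ⊢
        linarith
    · exact ⟨1, fun h1 h2 => absurd ⟨h1, h2⟩ h⟩
  choose r hr using key
  refine ⟨fun x U => ball x (r x U), ?_, ?_⟩
  · intro x U hU hx
    obtain ⟨h0, -, h1, -⟩ := hr x U hU hx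
    exact ⟨isOpen_ball, mem_ball_self h0, ball_subset_closedBall.trans h1⟩
  · intro x U hU hx hstep
    simp only at hstep ⊢
    have hpos : ∀ n, 0 < r (x n) (U n) := fun n => (hr _ _ (hU n) (hx n)).1
    have hcb : ∀ n, closedBall (x n) (r (x n) (U n)) ⊆ U n := fun n =>
      (hr _ _ (hU n) (hx n)).2.2.1
    -- diameter bounds
    have hdiam : ∀ n, ∀ u ∈ U (n + 1), ∀ v ∈ U (n + 1), dist u v ≤ (1 / 2 : ℝ) ^ n := by
      intro n
      induction n with
      | zero =>
        intro u hu v hv
        have hu' := hstep 0 hu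
        have hv' := hstep 0 hv
        rw [mem_ball] at hu' hv'
        have h3 : dist u v ≤ dist u (x 0) + dist v (x 0) := dist_triangle_right _ _ _
        have h4 := (hr _ _ (hU 0) (hx 0)).2.1
        simp only [pow_zero]
        linarith
      | succ n ih =>
        intro u hu v hv
        have h5 := (hr _ _ (hU (n + 1)) (hx (n + 1))).2.2.2 _ ih u
          (ball_subset_closedBall (hstep _ hu)) v (ball_subset_closedBall (hstep _ hv))
        rw [pow_succ]
        linarith
    have hanti : Antitone U := antitone_nat_of_succ_le fun n =>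
      ((hstep n).trans ball_subset_closedBall).trans (hcb n)
    have hcau : CauchySeq (fun n => x (n + 1)) := by
      refine cauchySeq_of_le_tendsto_0 (fun n => (1 / 2 : ℝ) ^ n) ?_ ?_
      · intro n m N hn hm
        exact hdiam N _ (hanti (by omega) (hx _)) _ (hanti (by omega) (hx _))
      · exact tendsto_pow_atTop_nhds_zero_of_lt_one (by norm_num) (by norm_num)
    obtain ⟨z, hz⟩ := cauchySeq_tendsto_of_complete hcau
    refine ⟨z, mem_iInter.2 fun n => hstep n (hcb (n + 1) ?_)⟩
    refine isClosed_closedBall.mem_of_tendsto hz ?_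
    filter_upwards [eventually_ge_atTop (n + 1)] with m hm
    exact ball_subset_closedBall (hstep (n + 1) (hanti (by omega) (hx (m + 1))))

theorem saf_of_completelyMetrizable (X : Type*) [t : TopologicalSpace X]
    [h : IsCompletelyMetrizableSpace X] : StronglyAlphaFavorable X := by
  obtain ⟨m, hm, hc⟩ := h.complete
  subst hm
  exact @saf_of_complete X m hc

/-! ### Basic open sets of the Wijsman topology -/

/-- The basic set given by finitely many hit conditions and finitely many miss conditions. -/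
def Basic {X : Type*} [MetricSpace X] (H M : Finset (X × ℝ)) : Set (Hyper X) :=
  {A | (∀ p ∈ H, infDist p.1 A.1 < p.2) ∧ ∀ q ∈ M, q.2 < infDist q.1 A.1}

theorem continuous_infDist_wijsman {X : Type*} [MetricSpace X] (x : X) :
    Continuous (fun A : Hyper X => infDist x A.1) := by
  rw [continuous_iff_le_induced]
  exact iInf_le _ x

theorem isOpen_basic {X : Type*} [MetricSpace X] (H M : Finset (X × ℝ)) :
    IsOpen (Basic H M) := by
  have : Basic H M = (⋂ p ∈ H, {A : Hyper X | infDist p.1 A.1 < p.2}) ∩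
      ⋂ q ∈ M, {A : Hyper X | q.2 < infDist q.1 A.1} := by
    ext A
    simp [Basic]
  rw [this]
  refine IsOpen.inter ?_ ?_
  · exact isOpen_biInter_finset fun p _ =>
      isOpen_lt (continuous_infDist_wijsman p.1) continuous_const
  · exact isOpen_biInter_finset fun q _ =>
      isOpen_lt continuous_const (continuous_infDist_wijsman q.1)

/-- The topology on `2^X` with base the sets `Basic H M`. -/
@[instance_reducible]
def basicTop (X : Type*) [MetricSpace X] : TopologicalSpace (Hyper X) where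
  IsOpen U := ∀ A ∈ U, ∃ H M : Finset (X × ℝ), A ∈ Basic H M ∧ Basic H M ⊆ U
  isOpen_univ := fun A _ => ⟨∅, ∅, by simp [Basic], subset_univ _⟩
  isOpen_inter := by
    classical
    intro U V hU hV A hA
    obtain ⟨H1, M1, h1, h1'⟩ := hU A hA.1
    obtain ⟨H2, M2, h2, h2'⟩ := hV A hA.2
    refine ⟨H1 ∪ H2, M1 ∪ M2, ⟨?_, ?_⟩, ?_⟩
    · intro p hp
      rcases Finset.mem_union.1 hp with hp | hp
      · exact h1.1 p hp
      · exact h2.1 p hp
    · intro p hp
      rcases Finset.mem_union.1 hp with hp | hp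
      · exact h1.2 p hp
      · exact h2.2 p hp
    · intro B hB
      exact ⟨h1' ⟨fun p hp => hB.1 p (Finset.mem_union_left _ hp),
          fun p hp => hB.2 p (Finset.mem_union_left _ hp)⟩,
        h2' ⟨fun p hp => hB.1 p (Finset.mem_union_right _ hp),
          fun p hp => hB.2 p (Finset.mem_union_right _ hp)⟩⟩
  isOpen_sUnion := by
    intro S hS A hA
    obtain ⟨U, hU, hAU⟩ := hA
    obtain ⟨H, M, h1, h2⟩ := hS U hU A hAU
    exact ⟨H, M, h1, h2.trans (subset_sUnion_of_mem hU)⟩

theorem basicTop_le (X : Type*) [MetricSpace X] : basicTop X ≤ wijsman X := by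
  refine le_iInf fun x => ?_
  rintro U ⟨V, hV, rfl⟩ A hA
  obtain ⟨ε, hε, hεV⟩ := Metric.isOpen_iff.1 hV _ hA
  refine ⟨{(x, infDist x A.1 + ε)}, {(x, infDist x A.1 - ε)}, ⟨?_, ?_⟩, ?_⟩
  · intro p hp
    rw [Finset.mem_singleton] at hp
    subst hp
    simpa using hε
  · intro p hp
    rw [Finset.mem_singleton] at hp
    subst hp
    simpa using hε
  · intro B hB
    have h1 := hB.1 _ (Finset.mem_singleton_self _)
    have h2 := hB.2 _ (Finset.mem_singleton_self _)
    refine hεV ?_
    rw [mem_ball, Real.dist_eq, abs_lt]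
    simp only at h1 h2
    constructor <;> linarith

theorem exists_basic {X : Type*} [MetricSpace X] {U : Set (Hyper X)} (hU : IsOpen U)
    {A : Hyper X} (hA : A ∈ U) :
    ∃ H M : Finset (X × ℝ), H.Nonempty ∧ A ∈ Basic H M ∧ Basic H M ⊆ U := by
  classical
  obtain ⟨H, M, h1, h2⟩ := (basicTop_le X) U hU A hA
  obtain ⟨a, ha⟩ := A.2.2
  refine ⟨insert (a, 1) H, M, Finset.insert_nonempty _ _, ⟨?_, h1.2⟩, ?_⟩
  · intro p hp
    rcases Finset.mem_insert.1 hp with hp | hp
    · subst hp
      have : infDist a A.1 ≤ dist a a := infDist_le_dist_of_mem ha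
      rw [dist_self] at this
      simp only
      linarith
    · exact h1.1 p hp
  · intro B hB
    exact h2 ⟨fun p hp => hB.1 p (Finset.mem_insert_of_mem hp), hB.2⟩

/-- The open set of all points satisfying all miss conditions. -/
def G {X : Type*} [MetricSpace X] (M : Finset (X × ℝ)) : Set X := {z | ∀ q ∈ M, q.2 < dist q.1 z}

theorem isOpen_G {X : Type*} [MetricSpace X] (M : Finset (X × ℝ)) : IsOpen (G M) := by
  have : G M = ⋂ q ∈ M, {z : X | q.2 < dist q.1 z} := by
    ext z
    simp [G]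
  rw [this]
  exact isOpen_biInter_finset fun q _ =>
    isOpen_lt continuous_const (continuous_const.dist continuous_id)

theorem mem_G_of_mem {X : Type*} [MetricSpace X] {H M : Finset (X × ℝ)} {A : Hyper X}
    (hA : A ∈ Basic H M) {z : X} (hz : z ∈ A.1) : z ∈ G M := fun q hq =>
  (hA.2 q hq).trans_le (infDist_le_dist_of_mem hz)

/-- If a basic set is contained in the set of all sets hitting `ball a δ`, then for one of its hit
conditions all admissible points lie in `ball a δ`. -/
theorem exists_hit {X : Type*} [MetricSpace X] {H M : Finset (X × ℝ)} (hH : H.Nonempty)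
    {a : X} {δ : ℝ}
    (hsub : ∀ A ∈ Basic H M, infDist a A.1 < δ) :
    ∃ p ∈ H, ball p.1 p.2 ∩ G M ⊆ ball a δ := by
  classical
  by_contra hcon
  push Not at hcon
  have : Nonempty X := ⟨hH.choose.1⟩
  have : ∀ p ∈ H, ∃ z, z ∈ ball p.1 p.2 ∩ G M ∧ z ∉ ball a δ := by
    intro p hp
    exact not_subset.1 (hcon p hp)
  choose! z hz hz' using this
  -- the finite set of all `z p`
  have hfin : ((H.image z : Finset X) : Set X).Finite := Finset.finite_toSet _
  have hneF : ((H.image z : Finset X) : Set X).Nonempty := by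
    obtain ⟨p, hp⟩ := hH
    exact ⟨z p, by simpa using ⟨p.1, p.2, hp, rfl⟩⟩
  let F : Hyper X := ⟨((H.image z : Finset X) : Set X), hfin.isClosed, hneF⟩
  have hF : F ∈ Basic H M := by
    refine ⟨fun p hp => ?_, fun q hq => ?_⟩
    · have h1 : z p ∈ F.1 := by
        show z p ∈ ((H.image z : Finset X) : Set X)
        simpa using ⟨p.1, p.2, hp, rfl⟩
      have h2 := (hz p hp).1
      rw [mem_ball, dist_comm] at h2
      exact (infDist_le_dist_of_mem h1).trans_lt h2
    · obtain ⟨w, hw, hw'⟩ := (hfin.isCompact).exists_infDist_eq_dist hneF q.1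
      show q.2 < infDist q.1 ((H.image z : Finset X) : Set X)
      rw [hw']
      obtain ⟨p, hp, rfl⟩ : ∃ p ∈ H, z p = w := by simpa using hw
      exact (hz p hp).2 q hq
  have h3 := hsub F hF
  rw [infDist_lt_iff hneF] at h3
  obtain ⟨w, hw, hw'⟩ := h3
  obtain ⟨p, hp, rfl⟩ : ∃ p ∈ H, z p = w := by simpa using hw
  exact hz' p hp (by rwa [mem_ball, dist_comm])

/-- The data of `α`'s answer to the move `(A, U)`. -/
structure Good {X : Type*} [MetricSpace X] (τ : X → Set X → Set X) (A : Hyper X)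
    (U : Set (Hyper X)) (H M : Finset (X × ℝ)) (a : X × ℝ → X) (δ r : X × ℝ → ℝ) : Prop where
  ne : H.Nonempty
  mem : A ∈ Basic H M
  sub : Basic H M ⊆ U
  aA : ∀ p ∈ H, a p ∈ A.1
  aO : ∀ p ∈ H, a p ∈ ball p.1 p.2 ∩ G M
  δpos : ∀ p ∈ H, 0 < δ p
  ball_sub : ∀ p ∈ H, ball (a p) (δ p) ⊆ τ (a p) (ball p.1 p.2 ∩ G M)
  lt_r : ∀ q ∈ M, q.2 < r q
  r_lt : ∀ q ∈ M, r q < infDist q.1 A.1

theorem exists_good {X : Type*} [MetricSpace X] {τ : X → Set X → Set X} (hτ : IsTactic τ)
    (A : Hyper X) (U : Set (Hyper X)) :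
    ∃ (H M : Finset (X × ℝ)) (a : X × ℝ → X) (δ r : X × ℝ → ℝ),
      IsOpen U → A ∈ U → Good τ A U H M a δ r := by
  classical
  by_cases h : IsOpen U ∧ A ∈ U
  · obtain ⟨hU, hA⟩ := h
    obtain ⟨H, M, h1, h2, h3⟩ := exists_basic hU hA
    have : Nonempty X := ⟨h1.choose.1⟩
    have ha : ∀ p ∈ H, ∃ z, z ∈ A.1 ∧ z ∈ ball p.1 p.2 ∩ G M := by
      intro p hp
      have h4 := h2.1 p hp
      rw [infDist_lt_iff A.2.2] at h4
      obtain ⟨z, hz, hz'⟩ := h4
      exact ⟨z, hz, by rwa [mem_ball, dist_comm], mem_G_of_mem h2 hz⟩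
    choose! a haA haO using ha
    have hδ : ∀ p ∈ H, ∃ δ, 0 < δ ∧ ball (a p) δ ⊆ τ (a p) (ball p.1 p.2 ∩ G M) := by
      intro p hp
      obtain ⟨h5, h6, -⟩ := hτ (a p) _ (isOpen_ball.inter (isOpen_G M)) (haO p hp)
      obtain ⟨ε, hε, hε'⟩ := Metric.isOpen_iff.1 h5 _ h6
      exact ⟨ε, hε, hε'⟩
    choose! δ hδ hδ' using hδ
    have hr : ∀ q ∈ M, ∃ r, q.2 < r ∧ r < infDist q.1 A.1 := fun q hq => exists_between (h2.2 q hq)
    choose! r hr hr' using hr
    exact ⟨H, M, a, δ, r, fun _ _ => ⟨h1, h2, h3, haA, haO, hδ, hδ', hr, hr'⟩⟩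
  · obtain ⟨a, -⟩ := A.2.2
    exact ⟨∅, ∅, fun _ => a, fun _ => 0, fun _ => 0, fun h1 h2 => absurd ⟨h1, h2⟩ h⟩

/-- The answer of `α` with the data `H, M, a, δ, r`. -/
noncomputable def Ans {X : Type*} [MetricSpace X] (H M : Finset (X × ℝ)) (a : X × ℝ → X)
    (δ r : X × ℝ → ℝ) : Set (Hyper X) := by
  classical
  exact Basic (H.image fun p => (a p, δ p)) (M.image fun q => (q.1, r q))

theorem mem_Ans {X : Type*} [MetricSpace X] {H M : Finset (X × ℝ)} {a : X × ℝ → X}
    {δ r : X × ℝ → ℝ} {B : Hyper X} :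
    B ∈ Ans H M a δ r ↔ (∀ p ∈ H, infDist (a p) B.1 < δ p) ∧ ∀ q ∈ M, r q < infDist q.1 B.1 := by
  classical
  constructor
  · intro h
    exact ⟨fun p hp => h.1 _ (Finset.mem_image_of_mem _ hp),
      fun q hq => h.2 _ (Finset.mem_image_of_mem _ hq)⟩
  · intro h
    refine ⟨fun p' hp' => ?_, fun q' hq' => ?_⟩
    · obtain ⟨p, hp, rfl⟩ := Finset.mem_image.1 hp'
      exact h.1 p hp
    · obtain ⟨q, hq, rfl⟩ := Finset.mem_image.1 hq'
      exact h.2 q hq

theorem isOpen_Ans {X : Type*} [MetricSpace X] (H M : Finset (X × ℝ)) (a : X × ℝ → X)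
    (δ r : X × ℝ → ℝ) : IsOpen (Ans H M a δ r) := isOpen_basic _ _

/-- Points satisfying the miss conditions of a basic set can be added to its members. -/
theorem G_sub_of_basic_sub {X : Type*} [MetricSpace X] {H M : Finset (X × ℝ)} {A : Hyper X}
    (hA : A ∈ Basic H M) {y : X} {s : ℝ} (hsub : ∀ B ∈ Basic H M, s < infDist y B.1)
    {z : X} (hz : z ∈ G M) : s < dist y z := by
  have hcl : IsClosed (A.1 ∪ {z}) := A.2.1.union isClosed_singleton
  let B : Hyper X := ⟨A.1 ∪ {z}, hcl, A.2.2.mono subset_union_left⟩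
  have hB : B ∈ Basic H M := by
    refine ⟨fun p hp => ?_, fun q hq => ?_⟩
    · exact (infDist_le_infDist_of_subset subset_union_left A.2.2).trans_lt (hA.1 p hp)
    · show q.2 < infDist q.1 (A.1 ∪ {z})
      obtain ⟨e, he1, he2⟩ := exists_between (lt_min (hA.2 q hq) (hz q hq))
      refine he1.trans_le ((le_infDist (A.2.2.mono subset_union_left)).2 ?_)
      intro w hw
      rcases hw with hw | hw
      · exact (he2.le.trans (min_le_left _ _)).trans (infDist_le_dist_of_mem hw)
      · rw [mem_singleton_iff] at hw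
        subst hw
        exact he2.le.trans (min_le_right _ _)
  exact (hsub B hB).trans_le (infDist_le_dist_of_mem (mem_union_right _ (mem_singleton z)))

theorem play {X : Type*} [MetricSpace X] {τ : X → Set X → Set X} (hτ : IsTactic τ)
    (hwin : ∀ (y : ℕ → X) (U : ℕ → Set X),
      (∀ n, IsOpen (U n)) → (∀ n, y n ∈ U n) → (∀ n, U (n + 1) ⊆ τ (y n) (U n)) →
        (⋂ n, τ (y n) (U n)).Nonempty)
    {A : ℕ → Hyper X} {U : ℕ → Set (Hyper X)} {H M : ℕ → Finset (X × ℝ)}
    {a : ℕ → X × ℝ → X} {δ r : ℕ → X × ℝ → ℝ}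
    (g : ∀ n, Good τ (A n) (U n) (H n) (M n) (a n) (δ n) (r n))
    (hstep : ∀ n, U (n + 1) ⊆ Ans (H n) (M n) (a n) (δ n) (r n)) :
    ∃ B : Hyper X, ∀ n, B ∈ Ans (H n) (M n) (a n) (δ n) (r n) := by
  classical
  obtain ⟨p00, hp00⟩ := (g 0).ne
  have : Nonempty X := ⟨p00.1⟩
  -- answers are inside the open sets of `β`
  have hAU : ∀ n, Ans (H n) (M n) (a n) (δ n) (r n) ⊆ Basic (H n) (M n) := by
    intro n B hB
    rw [mem_Ans] at hB
    refine ⟨fun p hp => ?_, fun q hq => ?_⟩
    · have h1 := hB.1 p hp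
      rw [infDist_lt_iff B.2.2] at h1 ⊢
      obtain ⟨z, hz, hz'⟩ := h1
      refine ⟨z, hz, ?_⟩
      have h2 : z ∈ ball (a n p) (δ n p) := by rwa [mem_ball, dist_comm]
      have h3 := (g n).ball_sub p hp h2
      have h4 := (hτ _ _ (isOpen_ball.inter (isOpen_G _)) ((g n).aO p hp)).2.2 h3
      rw [dist_comm]
      exact h4.1
    · exact ((g n).lt_r q hq).trans (hB.2 q hq)
  have hUanti : Antitone U := antitone_nat_of_succ_le fun n =>
    ((hstep n).trans (hAU n)).trans (g n).sub
  have hUans : ∀ n k, n + 1 ≤ k → U k ⊆ Ans (H n) (M n) (a n) (δ n) (r n) := fun n k hk =>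
    (hUanti hk).trans (hstep n)
  -- threads
  have hnext : ∀ n p, p ∈ H n → ∃ p' ∈ H (n + 1), ball p'.1 p'.2 ∩ G (M (n + 1)) ⊆
      ball (a n p) (δ n p) := by
    intro n p hp
    refine exists_hit (g (n + 1)).ne fun B hB => ?_
    exact (mem_Ans.1 (hstep n ((g (n + 1)).sub hB))).1 p hp
  choose! nx hnx hnx' using hnext
  have hthread : ∀ n p, p ∈ H n → ∃ z, z ∈ ball (a n p) (δ n p) ∧ ∀ k, n ≤ k → z ∈ G (M k) := by
    intro n p hp
    -- the thread through `(n, p)`
    let t : ℕ → X × ℝ := fun k => Nat.rec p (fun j q => nx (n + j) q) k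
    have ht0 : t 0 = p := rfl
    have hts : ∀ k, t (k + 1) = nx (n + k) (t k) := fun k => rfl
    have htH : ∀ k, t k ∈ H (n + k) := by
      intro k
      induction k with
      | zero => exact hp
      | succ k ih => rw [hts]; exact hnx _ _ ih
    have htsub : ∀ k, ball (t (k + 1)).1 (t (k + 1)).2 ∩ G (M (n + (k + 1))) ⊆
        ball (a (n + k) (t k)) (δ (n + k) (t k)) := by
      intro k
      rw [hts]
      exact hnx' _ _ (htH k)
    obtain ⟨z, hz⟩ := hwin (fun k => a (n + k) (t k))
      (fun k => ball (t k).1 (t k).2 ∩ G (M (n + k)))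
      (fun k => isOpen_ball.inter (isOpen_G _)) (fun k => (g (n + k)).aO _ (htH k))
      (fun k => (htsub k).trans ((g (n + k)).ball_sub _ (htH k)))
    rw [mem_iInter] at hz
    have hzO : ∀ k, z ∈ ball (t k).1 (t k).2 ∩ G (M (n + k)) := fun k =>
      (hτ _ _ (isOpen_ball.inter (isOpen_G _)) ((g (n + k)).aO _ (htH k))).2.2 (hz k)
    refine ⟨z, ?_, ?_⟩
    · exact htsub 0 (hzO 1)
    · intro k hk
      obtain ⟨j, rfl⟩ := Nat.exists_eq_add_of_le hk
      exact (hzO j).2
  choose! z hz hzG using hthread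
  -- the limit set
  let S : Set X := {w | ∃ n, ∃ p ∈ H n, w = z n p}
  have hSne : S.Nonempty := ⟨z 0 p00, 0, p00, hp00, rfl⟩
  let B : Hyper X := ⟨closure S, isClosed_closure, hSne.closure⟩
  have hBcl : B.1 = closure S := rfl
  refine ⟨B, fun n => ?_⟩
  rw [mem_Ans]
  refine ⟨fun p hp => ?_, fun q hq => ?_⟩
  · have h1 : z n p ∈ B.1 := subset_closure ⟨n, p, hp, rfl⟩
    refine (infDist_le_dist_of_mem h1).trans_lt ?_
    rw [dist_comm]
    exact hz n p hp
  · -- the comparison set `E`
    let E : Set X := {w | ∀ q ∈ M (n + 1), r (n + 1) q ≤ dist q.1 w}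
    have hEcl : IsClosed E := by
      have : E = ⋂ q ∈ M (n + 1), {w : X | r (n + 1) q ≤ dist q.1 w} := by
        ext w
        simp [E]
      rw [this]
      exact isClosed_biInter fun q _ =>
        isClosed_le continuous_const (continuous_const.dist continuous_id)
    have hAE : (A (n + 1)).1 ⊆ E := fun w hw q hq =>
      ((g (n + 1)).r_lt q hq).le.trans (infDist_le_dist_of_mem hw)
    let E' : Hyper X := ⟨E, hEcl, (A (n + 1)).2.2.mono hAE⟩
    have hE' : E' ∈ Basic (H (n + 1)) (M (n + 1)) := by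
      refine ⟨fun p hp => ?_, fun q hq => ?_⟩
      · exact (infDist_le_infDist_of_subset hAE (A (n + 1)).2.2).trans_lt ((g (n + 1)).mem.1 p hp)
      · refine ((g (n + 1)).lt_r q hq).trans_le ?_
        exact (le_infDist E'.2.2).2 fun w hw => hw q hq
    have h1 := (mem_Ans.1 (hstep n ((g (n + 1)).sub hE'))).2 q hq
    refine h1.trans_le (infDist_le_infDist_of_subset ?_ hSne.closure)
    refine closure_minimal ?_ hEcl
    rintro w ⟨m, p, hp, rfl⟩ q' hq'
    refine le_of_lt ?_
    have h2 : z m p ∈ G (M (m + (n + 2))) := hzG m p hp _ (by omega)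
    refine G_sub_of_basic_sub (g (m + (n + 2))).mem (fun C hC => ?_) h2
    exact (mem_Ans.1 (hUans (n + 1) _ (by omega) ((g (m + (n + 2))).sub hC))).2 q' hq'

/-- If the metric space `X` is strongly `α`-favorable, then so is its Wijsman hyperspace. -/
theorem hyper_saf (X : Type*) [MetricSpace X] (hX : StronglyAlphaFavorable X) :
    StronglyAlphaFavorable (Hyper X) := by
  classical
  obtain ⟨τ, hτ, hwin⟩ := hX
  choose H M a δ r hgood using fun A U => exists_good hτ A U
  -- the tactic
  refine ⟨fun A U => Ans (H A U) (M A U) (a A U) (δ A U) (r A U), ?_, ?_⟩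
  · intro A U hU hA
    have g := hgood A U hU hA
    refine ⟨isOpen_Ans _ _ _ _ _, mem_Ans.2 ⟨?_, g.r_lt⟩, ?_⟩
    · intro p hp
      exact (infDist_le_dist_of_mem (g.aA p hp)).trans_lt (by rw [dist_self]; exact g.δpos p hp)
    · refine Subset.trans ?_ g.sub
      intro B hB
      rw [mem_Ans] at hB
      refine ⟨fun p hp => ?_, fun q hq => ?_⟩
      · have h1 := hB.1 p hp
        rw [infDist_lt_iff B.2.2] at h1 ⊢
        obtain ⟨z, hz, hz'⟩ := h1
        refine ⟨z, hz, ?_⟩
        have h2 : z ∈ ball (a A U p) (δ A U p) := by rwa [mem_ball, dist_comm]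
        have h3 := g.ball_sub p hp h2
        have h4 := (hτ _ _ (isOpen_ball.inter (isOpen_G _)) (g.aO p hp)).2.2 h3
        rw [dist_comm]
        exact h4.1
      · exact (g.lt_r q hq).trans (hB.2 q hq)
  · intro A U hU hA hstep
    obtain ⟨B, hB⟩ := play hτ hwin (fun n => hgood _ _ (hU n) (hA n)) hstep
    exact ⟨B, mem_iInter.2 hB⟩

/-- **Main result.** Let `X` be a completely metrizable space and `d` any compatible metric on it
(that is, `X` is a metric space, with metric `d`, whose topology is completely metrizable; `d`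
itself need not be complete). Then the Wijsman hyperspace `(2^X, T_W(d))` is strongly
`α`-favorable. -/
theorem result (X : Type*) [MetricSpace X] [IsCompletelyMetrizableSpace X] :
    StronglyAlphaFavorable (Hyper X) :=
  hyper_saf X (saf_of_completelyMetrizable X)

end Pool.Agent.Results.MP_491d6e_gt.WijsmanTactic
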